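import Pool.Agent.T3h91.KP.Sp3
import Pool.Agent.Q95.SF.Wei
import Pool.Agent.Q239.SF.W5
import Pool.Agent.N145.SX.MFin

/-!
Varieties covered by curves of genus at most one: the images of the elliptic curves and the entire
curves are dense, and the varieties are not hyperbolic.
-/

set_option autoImplicit false
set_option linter.overlappingInstances false

open FF IntermediateField

namespace Pool.Agent.T3h91.KP

open Pool.Agent.W602.GT
open Pool.Agent.Y221.BD (EntireCurve)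
open Pool.Agent.Y216 (OnVar)
open Pool.Agent.Q103.SF
open Pool.Agent.Q271.RC (Nonconst)
open Pool.Agent.N145.SX (Cov1 GLO)

variable {L : Type} [Field L] [Algebra ℂ L] {m M : ℕ} {x : Fin (M + 1) → L}

theorem kod_of_gt {w : ℕ} (h : GeneralType ℂ L w) : KodGe ℂ L w (fun _ => False) w := by
  obtain ⟨-, N, hN, ω, h1, h2, h3⟩ := h
  refine ⟨N, hN, ω, fun j => ⟨h1 j, fun P hP D hDP => ?_, fun P hP _ => h2 P hP j⟩, h3⟩
  refine h2 P hP j D fun i f hf => ?_
  by_cases h0 : f = 0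
  · rw [h0, map_zero]
    exact P.reg_zero
  · have h4 := P.reg_mul (hDP i f) hf
    rwa [div_mul_cancel₀ _ h0] at h4

theorem ellForms_eq (hL : Algebra.trdeg ℂ L = (m + 1 : ℕ)) (h : Cov1 L m)
    (hgen : coords ℂ x = ⊤) : ellForms x = van x := by
  ext G
  constructor
  · rintro ⟨hG, h1⟩
    refine ⟨hG, ?_⟩
    by_contra hne
    obtain ⟨E, _, _, _, u, h2, h3, h4, h5⟩ := spec_of_cov hL h hgen hG hne
    exact h5 (h1 E h2 u h3 h4)
  · rintro ⟨hG, h1⟩
    exact ⟨hG, fun E _ _ _ _ v hv _ => hv.2 G hG h1⟩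

theorem entForms_eq (hL : Algebra.trdeg ℂ L = (m + 1 : ℕ)) (h : Cov1 L m)
    (hgen : coords ℂ x = ⊤) : entForms x = van x := by
  ext G
  constructor
  · rintro ⟨hG, h1⟩
    refine ⟨hG, ?_⟩
    by_contra hne
    obtain ⟨E, _, _, _, u, h2, h3, h4, h5⟩ := spec_of_cov hL h hgen hG hne
    obtain ⟨f, hf, hfu⟩ := curve_of_ell Pool.Agent.Q95.SF.wei h2 h3 h4
    apply h5
    have h6 : G ∈ vanOn Set.univ (fun t i => f i t) := ⟨hG, fun t _ => h1 f hf t⟩
    rw [hfu] at h6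
    exact h6.2
  · rintro ⟨hG, h1⟩
    exact ⟨hG, fun f hf t => hf.mem G hG h1 t⟩

theorem not_noElliptic (hL : Algebra.trdeg ℂ L = (m + 1 : ℕ)) (h : Cov1 L m)
    (hgen : coords ℂ x = ⊤) : ¬ NoElliptic x := by
  intro h1
  obtain ⟨E, _, _, _, u, h2, h3, h4, -⟩ := spec_of_cov (G := 1) hL h hgen
    ⟨0, MvPolynomial.isHomogeneous_one _ _⟩ (by
      unfold Pool.Agent.W602.GT.val
      rw [map_one]
      exact one_ne_zero)
  exact h1 E h2 u h3 h4

theorem not_brody (hL : Algebra.trdeg ℂ L = (m + 1 : ℕ)) (h : Cov1 L m)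
    (hgen : coords ℂ x = ⊤) : ¬ BrodyHyp x := by
  intro h1
  obtain ⟨E, _, _, _, u, h2, h3, h4, -⟩ := spec_of_cov (G := 1) hL h hgen
    ⟨0, MvPolynomial.isHomogeneous_one _ _⟩ (by
      unfold Pool.Agent.W602.GT.val
      rw [map_one]
      exact one_ne_zero)
  obtain ⟨f, hf, -⟩ := curve_of_ell Pool.Agent.Q95.SF.wei h2 h3 h4
  exact h1 f hf

theorem not_kobayashi (hL : Algebra.trdeg ℂ L = (m + 1 : ℕ)) (h : Cov1 L m)
    (hgen : coords ℂ x = ⊤) : ¬ KobayashiHyp x := fun h1 =>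
  not_brody hL h hgen ((Pool.Agent.Q239.SF.kob M L x).2 h1)

end Pool.Agent.T3h91.KP
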