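import Mathlib

/-!
Specialisation of points of plane cubic curves `y ^ 2 = x ^ 3 + a x + b` over a field to points over
the complex numbers.
-/

set_option autoImplicit false

open Polynomial

namespace Pool.Agent.T3h91.KP

/-- the value of a polynomial in two variables -/
noncomputable def ev2 {R S : Type} [CommRing R] [CommRing S] (f : R →+* S) (x y : S) :
    R[X][X] →+* S :=
  eval₂RingHom (eval₂RingHom f x) y

/-- the equation of Weierstrass -/
noncomputable def wei {R : Type} [CommRing R] (a b : R) : R[X][X] :=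
  X ^ 2 - C (X ^ 3 + C a * X + C b)

theorem wei_monic {R : Type} [CommRing R] [Nontrivial R] (a b : R) : (wei a b).Monic := by
  unfold wei
  exact monic_X_pow_sub_C _ two_ne_zero

theorem wei_natDegree {R : Type} [CommRing R] [Nontrivial R] (a b : R) :
    (wei a b).natDegree = 2 := by
  unfold wei
  exact natDegree_X_pow_sub_C

theorem ev2_wei {R S : Type} [CommRing R] [CommRing S] (f : R →+* S) {x y : S} {a b : R}
    (h : y ^ 2 = x ^ 3 + f a * x + f b) : ev2 f x y (wei a b) = 0 := by
  unfold ev2 wei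
  simp [h, eval₂_pow]

theorem ev2_lin {R S : Type} [CommRing R] [CommRing S] (f : R →+* S) (x y : S) (A B : R[X]) :
    ev2 f x y (C A + C B * X) = eval₂ f x A + eval₂ f x B * y := by
  unfold ev2
  simp

/-- the functions `1` and `y` are independent over the rational functions of `x` -/
theorem indep {k Ω : Type} [Field k] [Field Ω] [Algebra k Ω] {x y : Ω} {a b : k}
    (hx : Transcendental k x)
    (hy : y ^ 2 = x ^ 3 + algebraMap k Ω a * x + algebraMap k Ω b) {A B : k[X]}
    (h : aeval x A + aeval x B * y = 0) : A = 0 ∧ B = 0 := by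
  have h1 : aeval x (A ^ 2 - B ^ 2 * (X ^ 3 + C a * X + C b)) = 0 := by
    simp only [map_sub, map_mul, map_pow, map_add, aeval_X, aeval_C]
    rw [← hy]
    linear_combination (aeval x A - aeval x B * y) * h
  have h2 : A ^ 2 - B ^ 2 * (X ^ 3 + C a * X + C b) = 0 := by
    by_contra hne
    exact hx ⟨_, hne, h1⟩
  have h3 : A ^ 2 = B ^ 2 * (X ^ 3 + C a * X + C b) := sub_eq_zero.1 h2
  have hW : (X ^ 3 + C a * X + C b : k[X]).natDegree = 3 := by
    compute_degree!
  have hW0 : (X ^ 3 + C a * X + C b : k[X]) ≠ 0 := by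
    intro h0
    rw [h0] at hW
    simp at hW
  by_cases hB : B = 0
  · rw [hB] at h3
    have : A ^ 2 = 0 := by rw [h3]; ring
    exact ⟨pow_eq_zero_iff two_ne_zero |>.1 this, hB⟩
  · exfalso
    have h4 : (A ^ 2).natDegree = (B ^ 2 * (X ^ 3 + C a * X + C b)).natDegree := by rw [h3]
    rw [natDegree_mul (pow_ne_zero _ hB) hW0, natDegree_pow, natDegree_pow, hW] at h4
    omega

/-- the relations at a point are given by the remainders -/
theorem key {R k Ω : Type} [CommRing R] [Nontrivial R] [Field k] [Field Ω] [Algebra k Ω]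
    (f : R →+* k) {x y : Ω} {a b : R} (hx : Transcendental k x)
    (hy : y ^ 2 = x ^ 3 + algebraMap k Ω (f a) * x + algebraMap k Ω (f b)) (p : R[X][X]) :
    ev2 ((algebraMap k Ω).comp f) x y p = 0 ↔
      ∀ n m, f (((p %ₘ wei a b).coeff n).coeff m) = 0 := by
  have hmon := wei_monic a b
  obtain ⟨r, hr⟩ : ∃ r, r = p %ₘ wei a b := ⟨_, rfl⟩
  have h1 : ev2 ((algebraMap k Ω).comp f) x y p = ev2 ((algebraMap k Ω).comp f) x y r := by
    conv_lhs => rw [← modByMonic_add_div p (wei a b)]
    rw [map_add, map_mul, ev2_wei ((algebraMap k Ω).comp f) (x := x) (y := y) hy, zero_mul,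
      add_zero, hr]
  have hdeg : r.natDegree < 2 := by
    rw [hr, ← wei_natDegree a b]
    exact natDegree_modByMonic_lt p hmon (by
      intro h
      have := congrArg natDegree h
      rw [wei_natDegree] at this
      simp at this)
  have h2 : r = C (r.coeff 0) + C (r.coeff 1) * X := by
    conv_lhs => rw [r.as_sum_range_C_mul_X_pow' hdeg]
    simp [Finset.sum_range_succ]
  have hev : ∀ A : R[X], eval₂ ((algebraMap k Ω).comp f) x A = aeval x (A.map f) := by
    intro A
    rw [aeval_def, eval₂_map]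
  rw [h1, ← hr]
  constructor
  · intro h
    rw [h2, ev2_lin, hev, hev] at h
    obtain ⟨hA, hB⟩ := indep hx hy h
    intro n m
    rcases n with _ | _ | n
    · have := congrArg (fun q => q.coeff m) hA
      simpa using this
    · have := congrArg (fun q => q.coeff m) hB
      simpa using this
    · have : r.coeff (n + 1 + 1) = 0 := coeff_eq_zero_of_natDegree_lt (by omega)
      rw [this]
      simp
  · intro h
    have hA : (r.coeff 0).map f = 0 := by
      ext m
      simpa using h 0 m
    have hB : (r.coeff 1).map f = 0 := by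
      ext m
      simpa using h 1 m
    rw [h2, ev2_lin, hev, hev, hA, hB]
    simp

/-- points of finitely generated algebras over the complex numbers -/
theorem exists_pt {R : Type} [CommRing R] [IsDomain R] [Algebra ℂ R] [Algebra.FiniteType ℂ R]
    {h : R} (hh : h ≠ 0) : ∃ σ : R →ₐ[ℂ] ℂ, σ h ≠ 0 := by
  have hJ : IsJacobsonRing R := isJacobsonRing_of_finiteType (A := ℂ)
  have h1 : (⊥ : Ideal R).jacobson = ⊥ :=
    hJ.out (Ideal.IsPrime.isRadical Ideal.isPrime_bot)
  obtain ⟨m, hm, hhm⟩ : ∃ m : Ideal R, m.IsMaximal ∧ h ∉ m := by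
    by_contra hcon
    push Not at hcon
    apply hh
    have h2 : h ∈ (⊥ : Ideal R).jacobson := by
      rw [Ideal.jacobson, Ideal.mem_sInf]
      intro J hJ'
      exact hcon J hJ'.2
    rw [h1] at h2
    exact (Submodule.mem_bot R).1 h2
  let _ : Field (R ⧸ m) := Ideal.Quotient.field m
  have hfin : Module.Finite ℂ (R ⧸ m) := finite_of_finite_type_of_isJacobsonRing ℂ (R ⧸ m)
  have halg : Algebra.IsAlgebraic ℂ (R ⧸ m) := Algebra.IsAlgebraic.of_finite ℂ (R ⧸ m)
  let ψ : (R ⧸ m) →ₐ[ℂ] ℂ := IsAlgClosed.lift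
  refine ⟨ψ.comp (Ideal.Quotient.mkₐ ℂ m), ?_⟩
  intro h0
  apply hhm
  rw [AlgHom.comp_apply] at h0
  have h3 : Ideal.Quotient.mkₐ ℂ m h = 0 := (map_eq_zero ψ).1 h0
  exact Ideal.Quotient.eq_zero_iff_mem.1 h3

end Pool.Agent.T3h91.KP
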