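import Pool.Agent.T3h91.KP.Sp0

/-!
Specialisation of points of plane cubic curves over a field to points over the complex numbers: the
ring of coefficients.
-/

set_option autoImplicit false

open Polynomial

namespace Pool.Agent.T3h91.KP

theorem mem_adjoin_ev2 {Λ Ω : Type} [Field Λ] [Field Ω] [Algebra Λ Ω] {x y z : Ω}
    (hz : z ∈ Algebra.adjoin Λ ({x, y} : Set Ω)) :
    ∃ p : Λ[X][X], z = ev2 (algebraMap Λ Ω) x y p := by
  let S : Subalgebra Λ Ω :=
    { (ev2 (algebraMap Λ Ω) x y).range.toSubsemiring with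
      algebraMap_mem' := by
        intro r
        refine ⟨C (C r), ?_⟩
        unfold ev2
        simp }
  have hle : Algebra.adjoin Λ ({x, y} : Set Ω) ≤ S := by
    apply Algebra.adjoin_le
    intro w hw
    rcases hw with rfl | hw
    · refine ⟨C X, ?_⟩
      unfold ev2
      simp
    · rw [Set.mem_singleton_iff] at hw
      refine ⟨X, ?_⟩
      unfold ev2
      simp [hw]
  obtain ⟨p, hp⟩ := hle hz
  exact ⟨p, hp.symm⟩

/-- common denominators -/
theorem common_den {Λ Ω : Type} [Field Λ] [Field Ω] [Algebra Λ Ω] {x y : Ω} {N : ℕ}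
    {v : Fin N → Ω} (hv : ∀ i, v i ∈ IntermediateField.adjoin Λ ({x, y} : Set Ω)) :
    ∃ (d : Ω) (p : Fin N → Λ[X][X]), d ≠ 0 ∧ ∀ i, d * v i = ev2 (algebraMap Λ Ω) x y (p i) := by
  classical
  have h1 : ∀ i, ∃ r s : Λ[X][X], ev2 (algebraMap Λ Ω) x y s ≠ 0 ∧
      v i * ev2 (algebraMap Λ Ω) x y s = ev2 (algebraMap Λ Ω) x y r := by
    intro i
    obtain ⟨r, hr, s, hs, hrs⟩ := IntermediateField.mem_adjoin_iff_div.1 (hv i)
    obtain ⟨p, hp⟩ := mem_adjoin_ev2 hr
    obtain ⟨q, hq⟩ := mem_adjoin_ev2 hs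
    by_cases h0 : s = 0
    · refine ⟨0, 1, by simp, ?_⟩
      rw [hrs, h0]
      simp
    · refine ⟨p, q, by rw [← hq]; exact h0, ?_⟩
      rw [← hp, ← hq, hrs]
      field_simp
  choose r s hs hrs using h1
  refine ⟨∏ i, ev2 (algebraMap Λ Ω) x y (s i), fun i => r i * ∏ j ∈ Finset.univ.erase i, s j,
    Finset.prod_ne_zero_iff.2 fun i _ => hs i, fun i => ?_⟩
  rw [map_mul, ← hrs i, map_prod, ← Finset.mul_prod_erase _ _ (Finset.mem_univ i)]
  ring

/-- polynomials whose coefficients are in a subring -/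
theorem lift2 {R Λ : Type} [CommRing R] [CommRing Λ] (f : R →+* Λ) (p : Λ[X][X])
    (h : ∀ n m, (p.coeff n).coeff m ∈ Set.range f) :
    ∃ q : R[X][X], q.map (mapRingHom f) = p := by
  have h1 : p ∈ lifts (mapRingHom f) := by
    rw [lifts_iff_coeff_lifts]
    intro n
    have h2 : p.coeff n ∈ lifts f := by
      rw [lifts_iff_coeff_lifts]
      exact h n
    obtain ⟨q, hq⟩ := h2
    exact ⟨q, hq⟩
  obtain ⟨q, hq⟩ := h1
  exact ⟨q, hq⟩

theorem ev2_map {R Λ Ω : Type} [CommRing R] [CommRing Λ] [CommRing Ω] (f : R →+* Λ)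
    (g : Λ →+* Ω) (x y : Ω) (q : R[X][X]) :
    ev2 g x y (q.map (mapRingHom f)) = ev2 (g.comp f) x y q := by
  unfold ev2
  simp only [coe_eval₂RingHom, eval₂_map]
  congr 1
  ext r
  · simp
  · simp

/-- **The ring of coefficients.** -/
theorem exists_ring {Λ Ω : Type} [Field Λ] [Field Ω] [Algebra ℂ Λ] [Algebra Λ Ω] {x y : Ω} {N : ℕ}
    {v : Fin N → Ω} (hv : ∀ i, v i ∈ IntermediateField.adjoin Λ ({x, y} : Set Ω)) (a b : Λ) :
    ∃ (R : Subalgebra ℂ Λ) (a' b' : R) (d : Ω) (q : Fin N → R[X][X]), Algebra.FiniteType ℂ R ∧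
      (a' : Λ) = a ∧ (b' : Λ) = b ∧ d ≠ 0 ∧
      ∀ i, d * v i = ev2 ((algebraMap Λ Ω).comp R.val.toRingHom) x y (q i) := by
  classical
  obtain ⟨d, p, hd, hp⟩ := common_den hv
  let T : Finset Λ := {a, b} ∪ Finset.univ.biUnion fun i => (p i).coeffs.biUnion fun r => r.coeffs
  let R : Subalgebra ℂ Λ := Algebra.adjoin ℂ (T : Set Λ)
  have hT : ∀ z ∈ T, z ∈ R := fun z hz => Algebra.subset_adjoin hz
  have hcoef : ∀ i n m, ((p i).coeff n).coeff m ∈ R := by
    intro i n m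
    by_cases h1 : (p i).coeff n = 0
    · rw [h1, coeff_zero]
      exact zero_mem R
    by_cases h2 : ((p i).coeff n).coeff m = 0
    · rw [h2]
      exact zero_mem R
    apply hT
    refine Finset.mem_union_right _ (Finset.mem_biUnion.2 ⟨i, Finset.mem_univ _,
      Finset.mem_biUnion.2 ⟨(p i).coeff n, ?_, ?_⟩⟩)
    · exact coeff_mem_coeffs h1
    · exact coeff_mem_coeffs h2
  have hfin : Algebra.FiniteType ℂ R := (Subalgebra.fg_iff_finiteType _).1 ⟨T, rfl⟩
  have hq : ∀ i, ∃ q : R[X][X], q.map (mapRingHom R.val.toRingHom) = p i := by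
    intro i
    apply lift2
    intro n m
    exact ⟨⟨_, hcoef i n m⟩, rfl⟩
  choose q hq using hq
  refine ⟨R, ⟨a, hT a (by simp [T])⟩, ⟨b, hT b (by simp [T])⟩, d, q, hfin, rfl, rfl, hd, fun i => ?_⟩
  rw [hp i, ← hq i, ev2_map]

end Pool.Agent.T3h91.KP
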