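import Pool.Agent.T3h91.KP.Sp1

/-!
Specialisation of points of plane cubic curves over a field to points over the complex numbers: the
main step.
-/

set_option autoImplicit false

open Polynomial

namespace Pool.Agent.T3h91.KP

theorem aeval_ev2 {R S : Type} [CommRing R] [CommRing S] [Algebra ℂ R] [Algebra ℂ S]
    (f : R →+* S) (hf : ∀ c : ℂ, f (algebraMap ℂ R c) = algebraMap ℂ S c) (x y : S) {N : ℕ}
    (q : Fin N → R[X][X]) (H : MvPolynomial (Fin N) ℂ) :
    ev2 f x y (MvPolynomial.aeval q H) =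
      MvPolynomial.aeval (fun i => ev2 f x y (q i)) H := by
  rw [MvPolynomial.map_aeval, MvPolynomial.aeval_def, MvPolynomial.coe_eval₂Hom]
  congr 1
  ext c
  have h1 : algebraMap ℂ R[X][X] c = C (C (algebraMap ℂ R c)) := by
    rw [Polynomial.algebraMap_apply, Polynomial.algebraMap_apply]
  rw [RingHom.comp_apply, h1]
  unfold ev2
  simp [hf]

theorem aeval_smul {S : Type} [CommRing S] [Algebra ℂ S] {N : ℕ} (d : S) (v : Fin N → S)
    {H : MvPolynomial (Fin N) ℂ} {e : ℕ} (hH : H.IsHomogeneous e) :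
    MvPolynomial.aeval (fun i => d * v i) H = d ^ e * MvPolynomial.aeval v H := by
  rw [MvPolynomial.aeval_def, MvPolynomial.aeval_def, MvPolynomial.eval₂_eq',
    MvPolynomial.eval₂_eq', Finset.mul_sum]
  refine Finset.sum_congr rfl fun m hm => ?_
  have h4 : ∑ i, m i = e := by
    have := hH (MvPolynomial.mem_support_iff.1 hm)
    rw [← this, Finsupp.weight_apply, Finsupp.sum_fintype _ _ (by simp)]
    simp
  simp_rw [mul_pow]
  rw [Finset.prod_mul_distrib, Finset.prod_pow_eq_pow_sum, h4]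
  ring

theorem mem_range_of_alg {E : Type} [Field E] [Algebra ℂ E] {z : E} (hz : ¬ Transcendental ℂ z) :
    ∃ c : ℂ, z = algebraMap ℂ E c := by
  have h1 : IsAlgebraic ℂ z := by
    by_contra h
    exact hz h
  have h2 := h1.isIntegral
  have h3 : (minpoly ℂ z).degree = 1 :=
    IsAlgClosed.degree_eq_one_of_irreducible ℂ (minpoly.irreducible h2)
  obtain ⟨c, hc⟩ := minpoly.mem_range_of_degree_eq_one ℂ z h3
  exact ⟨c, hc.symm⟩

/-- **Specialisation.** -/
theorem spec_core {Λ Ω : Type} [Field Λ] [Field Ω] [Algebra ℂ Λ] [Algebra ℂ Ω] [Algebra Λ Ω]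
    [IsScalarTower ℂ Λ Ω] {x y : Ω} {a b : Λ} (hx : Transcendental Λ x)
    (hy : y ^ 2 = x ^ 3 + algebraMap Λ Ω a * x + algebraMap Λ Ω b)
    (hab : 4 * a ^ 3 + 27 * b ^ 2 ≠ 0) {N : ℕ} {v : Fin N → Ω}
    (hv : ∀ i, v i ∈ IntermediateField.adjoin Λ ({x, y} : Set Ω)) {i j : Fin N} (hj : v j ≠ 0)
    (hij : ∀ c : Λ, v i / v j ≠ algebraMap Λ Ω c) {G : MvPolynomial (Fin N) ℂ} {e : ℕ}
    (hG : G.IsHomogeneous e) (hGv : MvPolynomial.aeval v G ≠ 0) :
    ∃ a0 b0 : ℂ, 4 * a0 ^ 3 + 27 * b0 ^ 2 ≠ 0 ∧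
      ∀ (E : Type) [Field E] [Algebra ℂ E] (τ z : E), Transcendental ℂ τ →
        z ^ 2 = τ ^ 3 + algebraMap ℂ E a0 * τ + algebraMap ℂ E b0 →
        ∃ u : Fin N → E, (∀ (H : MvPolynomial (Fin N) ℂ) (s : ℕ), H.IsHomogeneous s →
          MvPolynomial.aeval v H = 0 → MvPolynomial.aeval u H = 0) ∧
          (u j ≠ 0 ∧ Transcendental ℂ (u i / u j)) ∧ MvPolynomial.aeval u G ≠ 0 := by
  classical
  obtain ⟨R, a', b', d, q, hfin, rfl, rfl, hd, hq⟩ := exists_ring hv a b
  obtain ⟨ι, hι⟩ : ∃ ι : R →+* Λ, ι = R.val.toRingHom := ⟨_, rfl⟩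
  have hιinj : Function.Injective ι := by
    rw [hι]
    exact Subtype.val_injective
  have hιa : ι a' = (a' : Λ) := by rw [hι]; rfl
  have hιb : ι b' = (b' : Λ) := by rw [hι]; rfl
  rw [← hι] at hq
  have hdom : IsDomain R := inferInstance
  -- the remainders
  let r : R[X][X] → ℕ → ℕ → R := fun p n m => ((p %ₘ wei a' b').coeff n).coeff m
  have hkey : ∀ p : R[X][X], ev2 ((algebraMap Λ Ω).comp ι) x y p = 0 ↔ ∀ n m, r p n m = 0 := by
    intro p
    have h1 := key ι hx (a := a') (b := b') (by rw [hιa, hιb]; exact hy) p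
    rw [h1]
    exact forall_congr' fun n => forall_congr' fun m => map_eq_zero_iff ι hιinj
  have hlin : ∀ (s t : R) (p p' : R[X][X]) n m,
      r (C (C s) * p - C (C t) * p') n m = s * r p n m - t * r p' n m := by
    intro s t p p' n m
    change ((((C (C s) * p - C (C t) * p') : R[X][X]) %ₘ wei a' b').coeff n).coeff m = _
    rw [sub_modByMonic]
    have h1 : ∀ (c : R) (w : R[X][X]), (C (C c) * w) %ₘ wei a' b' = C (C c) * (w %ₘ wei a' b') := by
      intro c w
      rw [← smul_eq_C_mul, ← smul_eq_C_mul, smul_modByMonic]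
    rw [h1, h1, coeff_sub, coeff_sub, coeff_C_mul, coeff_C_mul, coeff_C_mul, coeff_C_mul]
  -- a coefficient of the form
  have hf1 : ∀ c : ℂ, ((algebraMap Λ Ω).comp ι) (algebraMap ℂ R c) = algebraMap ℂ Ω c := by
    intro c
    have : ι (algebraMap ℂ R c) = algebraMap ℂ Λ c := by rw [hι]; rfl
    rw [RingHom.comp_apply, this, ← IsScalarTower.algebraMap_apply]
  have hval : ∀ (H : MvPolynomial (Fin N) ℂ) (s : ℕ), H.IsHomogeneous s →
      ev2 ((algebraMap Λ Ω).comp ι) x y (MvPolynomial.aeval q H) =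
        d ^ s * MvPolynomial.aeval v H := by
    intro H s hH
    rw [aeval_ev2 _ hf1, ← aeval_smul d v hH]
    congr 2
    ext i
    exact (hq i).symm
  obtain ⟨n0, m0, h0⟩ : ∃ n m, r (MvPolynomial.aeval q G) n m ≠ 0 := by
    by_contra hcon
    push Not at hcon
    have h1 := (hkey _).2 hcon
    rw [hval G e hG] at h1
    rcases mul_eq_zero.1 h1 with h2 | h2
    · exact pow_ne_zero _ hd h2
    · exact hGv h2
  -- a minor
  obtain ⟨n1, m1, n2, m2, h12⟩ : ∃ n1 m1 n2 m2,
      r (q i) n1 m1 * r (q j) n2 m2 - r (q i) n2 m2 * r (q j) n1 m1 ≠ 0 := by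
    by_contra hcon
    push Not at hcon
    obtain ⟨n2, m2, h2⟩ : ∃ n m, r (q j) n m ≠ 0 := by
      by_contra hcon2
      push Not at hcon2
      have h3 := (hkey _).2 hcon2
      rw [← hq j] at h3
      rcases mul_eq_zero.1 h3 with h4 | h4
      · exact hd h4
      · exact hj h4
    have h3 : ∀ n m, r (C (C (r (q j) n2 m2)) * q i - C (C (r (q i) n2 m2)) * q j) n m = 0 := by
      intro n m
      rw [hlin]
      have := hcon n m n2 m2
      linear_combination this
    have h4 := (hkey _).2 h3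
    have hC : ∀ c : R, ev2 ((algebraMap Λ Ω).comp ι) x y (C (C c)) = algebraMap Λ Ω (ι c) := by
      intro c
      unfold ev2
      simp
    rw [map_sub, map_mul, map_mul, hC, hC, ← hq i, ← hq j] at h4
    have h5 : algebraMap Λ Ω (ι (r (q j) n2 m2)) ≠ 0 := by
      rw [_root_.map_ne_zero, ne_eq, map_eq_zero_iff ι hιinj]
      exact h2
    apply hij (ι (r (q i) n2 m2) / ι (r (q j) n2 m2))
    rw [map_div₀, div_eq_div_iff hj h5]
    have h6 : d * (v i * algebraMap Λ Ω (ι (r (q j) n2 m2)) -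
        algebraMap Λ Ω (ι (r (q i) n2 m2)) * v j) = 0 := by linear_combination h4
    have h7 := (mul_eq_zero.1 h6).resolve_left hd
    linear_combination h7
  -- the point
  have hdisc : (4 * a' ^ 3 + 27 * b' ^ 2 : R) ≠ 0 := by
    intro h
    apply hab
    have h2 : R.val (4 * a' ^ 3 + 27 * b' ^ 2) = 0 := by rw [h, map_zero]
    rw [map_add, map_mul, map_mul, map_pow, map_pow, map_ofNat, map_ofNat] at h2
    exact h2
  obtain ⟨σ, hσ⟩ := exists_pt (R := R)
    (h := (4 * a' ^ 3 + 27 * b' ^ 2) * (r (MvPolynomial.aeval q G) n0 m0 *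
      (r (q i) n1 m1 * r (q j) n2 m2 - r (q i) n2 m2 * r (q j) n1 m1)))
    (mul_ne_zero hdisc (mul_ne_zero h0 h12))
  rw [map_mul, map_mul] at hσ
  have hσ1 := left_ne_zero_of_mul hσ
  have hσ2 := left_ne_zero_of_mul (right_ne_zero_of_mul hσ)
  have hσ3 := right_ne_zero_of_mul (right_ne_zero_of_mul hσ)
  refine ⟨σ a', σ b', ?_, ?_⟩
  · rw [map_add, map_mul, map_mul, map_pow, map_pow, map_ofNat, map_ofNat] at hσ1
    exact hσ1
  intro E _ _ τ z hτ hz
  have hkey' : ∀ p : R[X][X], ev2 ((algebraMap ℂ E).comp σ.toRingHom) τ z p = 0 ↔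
      ∀ n m, σ (r p n m) = 0 := fun p => key σ.toRingHom hτ (a := a') (b := b') hz p
  have hf2 : ∀ c : ℂ, ((algebraMap ℂ E).comp σ.toRingHom) (algebraMap ℂ R c) =
      algebraMap ℂ E c := by
    intro c
    have : σ.toRingHom (algebraMap ℂ R c) = c := σ.commutes c
    rw [RingHom.comp_apply, this]
  refine ⟨fun i => ev2 ((algebraMap ℂ E).comp σ.toRingHom) τ z (q i), ?_, ?_, ?_⟩
  · intro H s hH hv0
    rw [← aeval_ev2 _ hf2, hkey']
    have h1 := (hkey (MvPolynomial.aeval q H)).1 (by rw [hval H s hH, hv0, mul_zero])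
    intro n m
    rw [h1 n m, map_zero]
  · have hne : ev2 ((algebraMap ℂ E).comp σ.toRingHom) τ z (q j) ≠ 0 := by
      intro h
      apply hσ3
      have h1 := (hkey' _).1 h
      rw [map_sub, map_mul, map_mul, h1 n2 m2, h1 n1 m1]
      ring
    refine ⟨hne, ?_⟩
    by_contra hcon
    obtain ⟨c, hc⟩ := mem_range_of_alg hcon
    have hc' : ev2 ((algebraMap ℂ E).comp σ.toRingHom) τ z (q i) =
        algebraMap ℂ E c * ev2 ((algebraMap ℂ E).comp σ.toRingHom) τ z (q j) :=
      (div_eq_iff hne).1 hc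
    have hC : ∀ c : ℂ, ev2 ((algebraMap ℂ E).comp σ.toRingHom) τ z (C (C (algebraMap ℂ R c))) =
        algebraMap ℂ E c := by
      intro c
      rw [← hf2 c]
      unfold ev2
      simp
    have h1 : ev2 ((algebraMap ℂ E).comp σ.toRingHom) τ z
        (C (C (algebraMap ℂ R 1)) * q i - C (C (algebraMap ℂ R c)) * q j) = 0 := by
      rw [map_sub, map_mul, map_mul, hC, hC, hc', map_one, one_mul, sub_self]
    have h2 := (hkey' _).1 h1
    have h3 : ∀ n m, σ (r (q i) n m) = c * σ (r (q j) n m) := by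
      intro n m
      have h4 := h2 n m
      rw [hlin, map_sub, map_mul, map_mul] at h4
      have h5 : ∀ c : ℂ, σ (algebraMap ℂ R c) = c := fun c => σ.commutes c
      rw [h5, h5, one_mul] at h4
      linear_combination h4
    apply hσ3
    rw [map_sub, map_mul, map_mul, h3, h3]
    ring
  · rw [← aeval_ev2 _ hf2]
    intro h
    exact hσ2 ((hkey' _).1 h n0 m0)

end Pool.Agent.T3h91.KP
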