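import Pool.Agent.T3h91.KP.Sp2
import Pool.Agent.Q103.SF.Conv
import Pool.Agent.N145.SX.Flat
import Pool.Agent.N145.SX.Cover

/-!
Varieties covered by curves of genus at most one contain a dense set of images of elliptic curves.
-/

set_option autoImplicit false
set_option linter.overlappingInstances false

open FF IntermediateField

namespace Pool.Agent.T3h91.KP

open Pool.Agent.W602.GT
open Pool.Agent.Y216 (OnVar)
open Pool.Agent.Q103.SF (IsElliptic)
open Pool.Agent.Q271.RC (Nonconst)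
open Pool.Agent.N145.SX (Cov1 GLO)
open Pool.Agent.W603.LV (canDeg)

/-- the function field of an elliptic curve with a given equation -/
theorem exists_field {a b : ℂ} (hab : 4 * a ^ 3 + 27 * b ^ 2 ≠ 0) :
    ∃ (E : Type) (_ : Field E) (_ : Algebra ℂ E) (_ : IsFF ℂ E) (τ z : E), IsElliptic E ∧
      Transcendental ℂ τ ∧ z ^ 2 = τ ^ 3 + algebraMap ℂ E a * τ + algebraMap ℂ E b := by
  let Ω := AlgebraicClosure (RatFunc ℂ)
  let τ : Ω := algebraMap (RatFunc ℂ) Ω RatFunc.X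
  have hτ : Transcendental ℂ τ := by
    intro h1
    exact RatFunc.transcendental_X
      ((isAlgebraic_algebraMap_iff (algebraMap (RatFunc ℂ) Ω).injective).1 h1)
  obtain ⟨y, hy⟩ := IsAlgClosed.exists_pow_nat_eq (τ ^ 3 + algebraMap ℂ Ω a * τ + algebraMap ℂ Ω b)
    two_pos
  obtain ⟨E, hE⟩ : ∃ E : IntermediateField ℂ Ω, E = adjoin ℂ {τ, y} := ⟨_, rfl⟩
  obtain ⟨h1, h2⟩ := Pool.Agent.Q103.SF.ell_of_gen hτ hab hy E hE
  have hτE : τ ∈ E := by rw [hE]; exact subset_adjoin ℂ _ (by simp)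
  have hyE : y ∈ E := by rw [hE]; exact subset_adjoin ℂ _ (by simp)
  refine ⟨E, inferInstance, inferInstance, h1, ⟨τ, hτE⟩, ⟨y, hyE⟩, h2, ?_, ?_⟩
  · intro h
    exact hτ (IsAlgebraic.algHom E.val h)
  · apply E.val.injective
    simp only [map_pow, map_add, map_mul]
    exact hy

/-- a ratio of coordinates is not constant on the curves -/
theorem exists_ratio {L Λ F : Type} [Field L] [Field Λ] [Field F] [Algebra ℂ L] [Algebra ℂ Λ]
    [Algebra ℂ F] [Algebra Λ F] [IsScalarTower ℂ Λ F] {m : ℕ}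
    (hL : Algebra.trdeg ℂ L = (m + 1 : ℕ)) (hΛ : Algebra.trdeg ℂ Λ = m) (φ : L →ₐ[ℂ] F) {M : ℕ}
    {x : Fin (M + 1) → L} (hgen : coords ℂ x = ⊤) :
    ∃ i j, φ (x j) ≠ 0 ∧ ∀ c : Λ, φ (x i) / φ (x j) ≠ algebraMap Λ F c := by
  by_contra hcon
  push Not at hcon
  let ι : Λ →ₐ[ℂ] F := IsScalarTower.toAlgHom ℂ Λ F
  have hle : coords ℂ x ≤ ι.fieldRange.comap φ := by
    unfold coords
    rw [adjoin_le_iff]
    rintro _ ⟨i, j, hj, rfl⟩
    obtain ⟨c, hc⟩ := hcon i j ((map_ne_zero φ).2 hj)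
    refine ⟨c, ?_⟩
    change algebraMap Λ F c = φ (x i / x j)
    rw [map_div₀, hc]
  rw [hgen] at hle
  have hmem : ∀ z : L, φ z ∈ ι.fieldRange := fun z => hle (x := z) trivial
  let e : Λ ≃ₐ[ℂ] ι.fieldRange := AlgEquiv.ofInjectiveField ι
  let ψ : L →ₐ[ℂ] Λ := (e.symm : ι.fieldRange →ₐ[ℂ] Λ).comp
    (φ.codRestrict ι.fieldRange.toSubalgebra hmem)
  have h1 := trdeg_le_of_injective ψ ψ.injective
  rw [hL, hΛ] at h1
  have h2 : m + 1 ≤ m := by exact_mod_cast h1
  omega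

/-- **Specialisation of covering families of curves of genus at most one.** -/
theorem spec_of_cov {L : Type} [Field L] [Algebra ℂ L] {m : ℕ}
    (hL : Algebra.trdeg ℂ L = (m + 1 : ℕ)) (h : Cov1 L m) {M : ℕ} {x : Fin (M + 1) → L}
    (hgen : coords ℂ x = ⊤) {G : MvPolynomial (Fin (M + 1)) ℂ} (hG : IsForm G)
    (hGx : val x G ≠ 0) :
    ∃ (E : Type) (_ : Field E) (_ : Algebra ℂ E) (_ : IsFF ℂ E) (u : Fin (M + 1) → E),
      IsElliptic E ∧ OnVar ℂ x u ∧ Nonconst u ∧ val u G ≠ 0 := by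
  obtain ⟨e, he⟩ := hG
  obtain ⟨Λ, F, _, _, _, _, _, _, _, _, hΛ, hglo, ⟨φ⟩⟩ := h
  have hch : CharZero Λ := charZero_of_injective_algebraMap (algebraMap ℂ Λ).injective
  obtain ⟨i, j, hj, hij⟩ := exists_ratio hL hΛ φ hgen
  -- the general case
  have main : ∀ (Ω : Type) [Field Ω] [Algebra ℂ Ω] [Algebra Λ Ω] [Algebra F Ω]
      [IsScalarTower ℂ Λ Ω] [IsScalarTower ℂ F Ω] [IsScalarTower Λ F Ω] (x1 y1 : Ω) (a b : Λ),
      Transcendental Λ x1 → y1 ^ 2 = x1 ^ 3 + algebraMap Λ Ω a * x1 + algebraMap Λ Ω b →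
      4 * a ^ 3 + 27 * b ^ 2 ≠ 0 →
      (∀ f : F, algebraMap F Ω f ∈ adjoin Λ ({x1, y1} : Set Ω)) →
      ∃ (E : Type) (_ : Field E) (_ : Algebra ℂ E) (_ : IsFF ℂ E) (u : Fin (M + 1) → E),
        IsElliptic E ∧ OnVar ℂ x u ∧ Nonconst u ∧ val u G ≠ 0 := by
    intro Ω _ _ _ _ _ _ _ x1 y1 a b hx1 hy1 hab hmem
    have hval : ∀ H : MvPolynomial (Fin (M + 1)) ℂ,
        MvPolynomial.aeval (fun i => algebraMap F Ω (φ (x i))) H = algebraMap F Ω (φ (val x H)) := by
      intro H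
      let θ : L →ₐ[ℂ] Ω := (IsScalarTower.toAlgHom ℂ F Ω).comp φ
      have h1 : θ (MvPolynomial.aeval x H) = MvPolynomial.aeval (fun i => θ (x i)) H := by
        rw [MvPolynomial.comp_aeval_apply]
      exact h1.symm
    obtain ⟨a0, b0, hab0, hE⟩ := spec_core (v := fun i => algebraMap F Ω (φ (x i))) (i := i)
      (j := j) (G := G) (e := e) hx1 hy1 hab (fun i => hmem _)
      ((map_ne_zero (algebraMap F Ω)).2 hj) (fun c hc => hij c (by
        apply (algebraMap F Ω).injective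
        rw [map_div₀, ← IsScalarTower.algebraMap_apply Λ F Ω]
        exact hc)) he (by
        rw [hval]
        exact (map_ne_zero _).2 ((map_ne_zero φ).2 hGx))
    obtain ⟨E, _, _, _, τ, z, hell, hτ, hz⟩ := exists_field hab0
    obtain ⟨u, hu1, ⟨hu2, hu3⟩, hu4⟩ := hE E τ z hτ hz
    refine ⟨E, inferInstance, inferInstance, inferInstance, u, hell, ⟨⟨j, hu2⟩, ?_⟩,
      ⟨i, j, hu2, hu3⟩, hu4⟩
    rintro H ⟨s, hs⟩ hH
    exact hu1 H s hs (by rw [hval, hH, map_zero, map_zero])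
  rcases Pool.Agent.N145.SX.flat_of_glo hglo with ⟨t, ht⟩ | ⟨D, hD0, hD⟩
  · -- rational curves
    have htt : Transcendental Λ t := by
      intro halg
      obtain ⟨f, hf⟩ := IsFF.exists_transcendental (k := Λ) (K := F)
      have hfm : f ∈ Λ⟮t⟯ := by rw [ht]; exact mem_top
      have h0 := isAlgebraic_adjoin_simple (K := Λ) halg.isIntegral
      exact hf (IsAlgebraic.algHom (Λ⟮t⟯).val (h0.isAlgebraic ⟨f, hfm⟩))
    obtain ⟨y1, hy1⟩ := IsAlgClosed.exists_pow_nat_eq
      (algebraMap F (AlgebraicClosure F) t ^ 3 + algebraMap Λ (AlgebraicClosure F) 0 *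
        algebraMap F (AlgebraicClosure F) t + algebraMap Λ (AlgebraicClosure F) 1) two_pos
    refine main (AlgebraicClosure F) (algebraMap F (AlgebraicClosure F) t) y1 0 1 ?_ hy1
      (by norm_num) ?_
    · intro h1
      exact htt ((isAlgebraic_algebraMap_iff (algebraMap F (AlgebraicClosure F)).injective).1 h1)
    · intro f
      have hf : f ∈ Λ⟮t⟯ := by rw [ht]; exact mem_top
      have h3 : algebraMap F (AlgebraicClosure F) f ∈
          (Λ⟮t⟯).map (IsScalarTower.toAlgHom Λ F (AlgebraicClosure F)) := ⟨f, hf, rfl⟩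
      rw [adjoin_map, Set.image_singleton] at h3
      exact adjoin.mono Λ _ _ (by
        intro z hz
        left
        exact hz) h3
  · -- elliptic curves
    have h0 : canDeg Λ F = 0 := by
      rw [Pool.Agent.W603.LV.canDeg_eq hD0]
      simp [hD]
    obtain ⟨x1, y1, a, b, hx1, hy1, -, hgen1, hroot⟩ := Pool.Agent.TH143.GE.weier h0
    have hab : 4 * a ^ 3 + 27 * b ^ 2 ≠ 0 := by
      intro h0
      by_cases ha : a = 0
      · subst ha
        have hb : b = 0 := by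
          have h1 : b ^ 2 = 0 := by linear_combination h0 / 27
          exact pow_eq_zero_iff two_ne_zero |>.1 h1
        subst hb
        exact hroot 0 (by ring) (by ring)
      · have h2 : (2 * a) ≠ 0 := mul_ne_zero two_ne_zero ha
        refine hroot (-(3 * b) / (2 * a)) ?_ ?_
        · field_simp
          linear_combination (-b) * h0
        · field_simp
          linear_combination h0
    refine main F x1 y1 a b hx1 hy1 hab ?_
    intro f
    obtain ⟨r, s, hf⟩ := hgen1 f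
    have key : ∀ p : MvPolynomial (Fin 2) Λ,
        MvPolynomial.aeval ![x1, y1] p ∈ adjoin Λ ({x1, y1} : Set F) := by
      intro p
      have h1 : MvPolynomial.aeval ![x1, y1] p ∈ Algebra.adjoin Λ (Set.range ![x1, y1]) := by
        rw [Algebra.adjoin_range_eq_range_aeval]
        exact ⟨p, rfl⟩
      refine (Algebra.adjoin_le ?_ : Algebra.adjoin Λ (Set.range ![x1, y1]) ≤
        (adjoin Λ ({x1, y1} : Set F)).toSubalgebra) h1
      rintro _ ⟨i, rfl⟩
      apply subset_adjoin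
      fin_cases i <;> simp
    change f ∈ _
    rw [hf]
    exact div_mem (key r) (key s)

end Pool.Agent.T3h91.KP
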